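import Mathlib
import Pool.Agent.Run7.h870.PQ.Mn

/-!
# Consecutive prime values at given distances, for a positive proportion of the constant terms

Let `F ∈ ℤ[x]` have degree `D ≥ 2` and positive leading coefficient, for example `F = x ^ 2`. Let `𝓗` be any
nonempty set of integers `1 ≤ h ≤ c log X` with bounded `h / φ(h)` which are possible distances between
prime values (all even `h`, and all `h` if `F(0)` and `F(1)` have the same parity). Then for at least `c X` of the
constants `a ≤ X` at least `c |𝓗|` of the `h ∈ 𝓗` have the following property: there are at least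
`c K / (log X) ^ 2` integers `n ≤ K` for which `F(n) + a` and `F(n + h) + a` are CONSECUTIVE prime values of
`F + a`: both are prime, and all `F(m) + a` with `n < m < n + h` are composite. Here `K` is any length with
`K ^ (D - 1) ≥ X ^ (1/3) (log X) ^ C` and `K ^ D ≤ c X`; for `D = 2` these are the `n ≤ K` from
`X ^ (1/3) (log X) ^ C` to `c X ^ (1/2)`.

With `𝓗 = {h}`: every possible distance occurs between consecutive prime values of `F + a` for a positive
proportion of the `a`. With `𝓗` all `h ≤ c log X` with `h / φ(h) ≤ T`: a positive proportion of all distances up to a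
constant times the mean gap occur between consecutive prime values of ONE polynomial `F + a`, for a
positive proportion of the `a`. (`K / (log X) ^ 2` is the expected order of magnitude.)

Proof. First moment: the pairs are prime pairs `q`, `q + G(n)` with `G(n) = F(n + h) - F(n)`, and the
Hardy-Littlewood asymptotic is known for almost all values of `G` at short arguments. Second moment: upper bound
sieve for four primes with averages of the singular series over values of polynomials, uniform in `h`. The triples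
`F(n) + a`, `F(n + j) + a`, `F(n + h) + a` are subtracted by the sieve. Then Cauchy-Schwarz and double counting.
-/

set_option autoImplicit false

namespace Pool.Agent.Results.MP_2dba45_nt.ConsecutivePrimeValues

open Finset Polynomial

/-- `F(n) + a` is a prime number. -/
def PrimeValue (F : ℤ[X]) (a n : ℕ) : Prop := ((a : ℤ) + F.eval (n : ℤ)).toNat.Prime

/-- `F(n) + a` and `F(n + h) + a` are prime, and no `F(m) + a` with `n < m < n + h` is prime. -/
def ConsecutiveAt (F : ℤ[X]) (a h n : ℕ) : Prop :=
  PrimeValue F a n ∧ PrimeValue F a (n + h) ∧ ∀ m : ℕ, n < m → m < n + h → ¬ PrimeValue F a m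

open Classical in
/-- The number of the `n ≤ K` for which `F(n) + a` and `F(n + h) + a` are consecutive prime values. -/
noncomputable def consec (F : ℤ[X]) (K h a : ℕ) : ℕ := ((Icc 1 K).filter fun n : ℕ => ConsecutiveAt F a h n).card

lemma consec_eq (F : ℤ[X]) (K h a : ℕ) : consec F K h a = Run7.h870.PQ.cg F K h a := by
  classical
  unfold consec Run7.h870.PQ.cg
  congr 1
  apply filter_congr
  intro n _
  unfold ConsecutiveAt PrimeValue
  constructor
  · rintro ⟨h1, h2, h3⟩
    exact ⟨⟨h1, h2⟩, fun j hj hjh => h3 (n + j) (by omega) (by omega)⟩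
  · rintro ⟨⟨h1, h2⟩, h3⟩
    refine ⟨h1, h2, fun m hm hmh => ?_⟩
    have h4 := h3 (m - n) (by omega) (by omega)
    rwa [show n + (m - n) = m by omega] at h4

open Classical in
/-- **Consecutive prime values at given distances, for a positive proportion of the constant terms.** -/
theorem result (F : ℤ[X]) (deg : 2 ≤ F.natDegree) (lead : 1 ≤ F.leadingCoeff) (T : ℝ) :
    ∃ c : ℝ, 0 < c ∧ ∃ C X₀ : ℕ, ∀ X K : ℕ, X₀ ≤ X →
      (X : ℝ) ^ (1 / 3 : ℝ) * Real.log X ^ C ≤ (K : ℝ) ^ (F.natDegree - 1) →
      (K : ℝ) ^ F.natDegree ≤ c * X →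
      ∀ 𝓗 : Finset ℕ, 𝓗.Nonempty →
        (∀ h ∈ 𝓗, 1 ≤ h ∧ (h : ℝ) ≤ c * Real.log X ∧ (h : ℝ) / h.totient ≤ T ∧ ∃ n : ℤ, 2 ∣ F.eval (n + h) - F.eval n) →
        c * X ≤ (((Icc 1 X).filter fun a : ℕ => c * 𝓗.card ≤
          ((𝓗.filter fun h : ℕ => c * K / Real.log X ^ 2 ≤ consec F K h a).card : ℝ)).card : ℝ) := by
  obtain ⟨c₁, hc₁, C, X₁, hg⟩ := Run7.h870.PQ.gaps F deg lead (max T 1) (le_max_right _ _)
  refine ⟨c₁ / 2, by positivity, C, X₁ + 3, ?_⟩
  intro X K hX hK hKD 𝓗 hne hH
  have hX3 : (3 : ℝ) ≤ X := by exact_mod_cast (by omega : 3 ≤ X)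
  have hX0 : (0 : ℝ) < X := by linarith
  have hlog : 1 ≤ Real.log X := by
    rw [Real.le_log_iff_exp_le (by linarith)]
    linarith [Real.exp_one_lt_d9]
  have hcc : c₁ / 2 ≤ c₁ := by linarith
  have h1 := Run7.h870.PQ.dbl X (by omega) 𝓗 (card_pos.2 hne) (fun h a => c₁ * K / Real.log X ^ 2 ≤ (Run7.h870.PQ.cg F K h a : ℝ))
    c₁ hc₁ (by
    intro h hh
    obtain ⟨a1, a2, a3, a4⟩ := hH h hh
    exact hg X K h (by omega) hK (hKD.trans (mul_le_mul_of_nonneg_right hcc hX0.le)) a1
      (a2.trans (mul_le_mul_of_nonneg_right hcc (by linarith))) (a3.trans (le_max_left _ _)) a4)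
  refine h1.trans ?_
  rw [Nat.cast_le]
  apply card_le_card
  intro a ha
  rw [mem_filter] at ha ⊢
  refine ⟨ha.1, ha.2.trans ?_⟩
  rw [Nat.cast_le]
  apply card_le_card
  intro h hh
  rw [mem_filter] at hh ⊢
  refine ⟨hh.1, ?_⟩
  rw [consec_eq]
  refine le_trans ?_ hh.2
  rw [mul_div_assoc, mul_div_assoc]
  exact mul_le_mul_of_nonneg_right hcc (by positivity)

end Pool.Agent.Results.MP_2dba45_nt.ConsecutivePrimeValues
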