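import Pool.Agent.Run7.h994.PR.All

/-!
# Simultaneous primes `n² + a`, `n² + a + h` for a positive proportion of the pairs `(a, h)`, `h` of size `log N`

For `η, ε > 0` there are `c, B > 0` (they depend on `η` only) such that for all large `N`, all `A`, `H` with
`N ^ (1/2 + ε) ≤ A ≤ N`, `B log N ≤ H ≤ A`: for at least `c A H` of the pairs `a ≤ A`, `h ≤ H` the singular series of the two
polynomials `n² + a`, `n² + a + h` converges to a number `S ≥ c` and the number of the `n ≤ N` for which both values are primes is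
at least `1 - η` times the number `(S / 4) ∫ dt / log² t` of Hardy and Littlewood. Up to the constants `B` and `c` the range of `h` is
the best possible one: for `H = δ log N` with small `δ` only few of the intervals of length `H` contain even one prime. The values
`n² + a`, `n ≤ N`, `a ≤ N ^ (1/2 + ε)` are a set of density `N ^ (-1/2 + ε)` of the integers up to `N²`.

Method. The first moment of the number of the primes in the windows `n² + y < p ≤ n² + y + H`, on average over `n ≤ N`, `y ≤ A`, is
known (fractional parts of `p ^ (1/2)`: Vaughan's identity, double large sieve, second derivative test). By the Cauchy-Schwarz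
inequality the number of the pairs of primes in the same window is at least the square of the mean value, and for `H ≥ B log N` the
diagonal is small. So the conjectured number is a lower bound for the average over the pairs `(a, h)`. The average of the singular
series over the pairs is at most `1 + o(1)` (two dimensional sieve in both directions and the average of the singular series of the
prime pairs), the upper bound sieve for every single pair with the truncated singular series as the density and the second moment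
of the latter show that the excess cannot be carried by few pairs. For almost all pairs the truncated singular series is close to
`S` (almost all `L(1, χ)` are close to short products).
-/

set_option autoImplicit false

namespace Pool.Agent.Results.MP_2dba45_nt.PairsInShortGaps

open Finset Filter Topology
open Polynomial (X)

/-- the number of the residues `x` modulo `p` with `p ∣ (x² + a) (x² + a + h)` -/
def omega (a h p : ℕ) : ℕ := #((range p).filter (fun x : ℕ => p ∣ (x ^ 2 + a) * (x ^ 2 + a + h)))

/-- the product of `(1 - omega(p) / p) / (1 - 1 / p)²` over the primes `p ≤ z` -/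
noncomputable def partialS (a h z : ℕ) : ℝ :=
  ∏ p ∈ (Icc 1 z).filter Nat.Prime, (1 - (omega a h p : ℝ) / p) / (1 - 1 / (p : ℝ)) ^ 2

/-- the number of the `1 ≤ n ≤ N` for which `n² + a` and `n² + a + h` are both primes -/
def count (a h N : ℕ) : ℕ := #((Icc 1 N).filter (fun n : ℕ => Nat.Prime (n ^ 2 + a) ∧ Nat.Prime (n ^ 2 + a + h)))

/-- the conclusion for one pair `(a, h)`: the products over the primes in increasing order converge to some `S ≥ c`, and the
number of the `n` is at least `(1 - η) (S / 4) ∫ dt / log² t` -/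
def Good (η c : ℝ) (N a h : ℕ) : Prop :=
  ∃ S : ℝ, c ≤ S ∧ Tendsto (partialS a h) atTop (𝓝 S) ∧
    (1 - η) * (S / 4 * ∫ t in (2 : ℝ)..(N : ℝ), 1 / Real.log t ^ 2) ≤ count a h N

lemma omega_eq (a h p : ℕ) : Run7.h994.PR.r2 (X ^ 2) a (a + h) p = omega a h p := by
  rw [Run7.h994.PR.r2_eq']
  unfold omega
  congr 1
  refine filter_congr fun x _ => ?_
  rw [Polynomial.eval_pow, Polynomial.eval_X]
  have e1 : ((x : ℤ) ^ 2 + (a : ℤ)) * ((x : ℤ) ^ 2 + ((a : ℤ) + (h : ℤ))) = (((x ^ 2 + a) * (x ^ 2 + a + h) : ℕ) : ℤ) := by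
    push_cast
    ring
  rw [e1]
  exact Int.natCast_dvd_natCast

lemma partialS_eq (a h z : ℕ) : Run7.h994.PR.g2 (X ^ 2) a (a + h) z = partialS a h z := by
  unfold Run7.h994.PR.g2 partialS Pool.Agent.H373R2.T7.Vz Pool.Agent.H373R2.T7.pz
  rw [prod_div_distrib, prod_pow]
  simp_rw [omega_eq]

lemma count_eq (a h N : ℕ) : Run7.h994.PR.P2 (X ^ 2) a (a + h) N = count a h N := by
  unfold Run7.h994.PR.P2 count
  congr 1
  refine filter_congr fun n _ => ?_
  rw [Polynomial.eval_pow, Polynomial.eval_X]
  have e1 : ((n : ℤ) ^ 2 + (a : ℤ)).toNat = n ^ 2 + a := by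
    have : (n : ℤ) ^ 2 + (a : ℤ) = ((n ^ 2 + a : ℕ) : ℤ) := by push_cast; ring
    rw [this, Int.toNat_natCast]
  have e2 : ((n : ℤ) ^ 2 + ((a + h : ℕ) : ℤ)).toNat = n ^ 2 + a + h := by
    have : (n : ℤ) ^ 2 + ((a + h : ℕ) : ℤ) = ((n ^ 2 + a + h : ℕ) : ℤ) := by push_cast; ring
    rw [this, Int.toNat_natCast]
  rw [e1, e2]

open Classical in
theorem result (η : ℝ) (hη : 0 < η) :
    ∃ c B : ℝ, 0 < c ∧ 0 < B ∧ ∀ ε : ℝ, 0 < ε → ∃ N₀ : ℕ, ∀ N : ℕ, N₀ ≤ N → ∀ A H : ℕ,
      (N : ℝ) ^ (1 / 2 + ε) ≤ A → A ≤ N → B * Real.log N ≤ H → H ≤ A →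
      c * (A * H) ≤ #(((Icc 1 A) ×ˢ (Icc 1 H)).filter (fun i => Good η c N i.1 i.2)) := by
  obtain ⟨c, B, hc, hB, h⟩ := Run7.h994.PR.main η hη
  refine ⟨c, B, hc, hB, fun ε hε => ?_⟩
  obtain ⟨N₀, h⟩ := h ε hε
  refine ⟨N₀, fun N hN A H hA1 hA2 hH1 hH2 => ?_⟩
  refine (h N hN A H hA1 hA2 hH1 hH2).trans ?_
  norm_cast
  apply card_le_card
  intro i hi
  rw [mem_filter] at hi ⊢
  refine ⟨hi.1, ?_⟩
  obtain ⟨S, h1, h2, h3⟩ := hi.2
  refine ⟨S, h1, ?_, ?_⟩
  · exact h2.congr fun z => partialS_eq i.1 i.2 z
  · rw [← count_eq]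
    exact h3

end Pool.Agent.Results.MP_2dba45_nt.PairsInShortGaps
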