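import Pool.Agent.Run7.h285.S.All

/-!
# Systems `n² + a₁, …, n² + a_k` of primes at the optimal scale `T (log X)^k` and at all longer scales at once

For almost all tuples `(a₁, …, a_k)` of constant terms, `|a_l| ≤ X`, and almost all starting points `m` in an arbitrary interval
of length `X^(1/3) (log X)^B` below `√X (log X)^C`, the number of the `n`, `m < n ≤ m + H`, for which ALL the numbers `|n² + a_l|` are
primes, is the number predicted by Bateman and Horn (with its true constant) up to a relative error `ε`, for ALL lengths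
`T (log X)^k ≤ H ≤ √X (log X)^C` at once, where `T` depends on `k` and on the precision `ε` alone. The order `(log X)^k` of the length
is optimal: windows of length `c (log X)^k`, `c` small, contain no such `n` for almost all pairs.

Method. The second moment over the tuples and the windows: for constant terms that vary independently it is a sum over `n`, `n'`
of products of correlations `∑_a f(n² + a) f'(n'² + a)`; with `n = m + i`, `n' = m + j` the shift `n'² - n² = (j - i) (2 m + i + j)`
runs over an arithmetic progression of length `M` as `m` varies. For `f` = primes minus their sieve model these correlations are small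
for almost all `m` by the law of the project MK of helper794 (Vinogradov's method and the circle method over a thin family of shifts),
for `f` = the difference of two sieve models by the fundamental lemma. A telescoping sum over the `k` factors reduces the second
moment of `∏ (primes) - ∏ (models)` to them. The passage to all lengths: the second moment decreases like `1 / H` relative to the square
of the mean, the differences of the models need to be compared only at `O(log log X)` scales, and the counting functions are monotone.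
-/

set_option autoImplicit false

namespace Pool.Agent.Results.MP_2dba45_nt.SystemsAtAllScales

open Finset Filter Topology

/-- the box of the tuples `a` of constant terms: `|a l| ≤ X` for all `l` -/
noncomputable def Box (k X : ℕ) : Finset (Fin k → ℤ) := Fintype.piFinset (fun _ => Icc (-(X : ℤ)) X)

/-- the number of the residues `x` modulo `p` with `p | x² + a l` for some `l` -/
noncomputable def nu {k : ℕ} (a : Fin k → ℤ) (p : ℕ) : ℕ := by
  classical exact #((range p).filter (fun x : ℕ => ∃ l, (p : ℤ) ∣ (x : ℤ) ^ 2 + a l))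

/-- the constant of Bateman and Horn, cut at `N`: the product of `(1 - ν(p) / p) / (1 - 1 / p)^k` over the primes `p ≤ N` -/
noncomputable def BH {k : ℕ} (a : Fin k → ℤ) (N : ℕ) : ℝ :=
  ∏ p ∈ (range (N + 1)).filter Nat.Prime, (1 - (nu a p : ℝ) / p) / (1 - 1 / (p : ℝ)) ^ k

/-- the number of `n` with `m < n ≤ m + H` such that all the numbers `|n² + a l|` are primes -/
def P {k : ℕ} (a : Fin k → ℤ) (m H : ℕ) : ℕ :=
  #((Ioc m (m + H)).filter (fun n : ℕ => ∀ l, Nat.Prime ((n : ℤ) ^ 2 + a l).natAbs))

/-- the sum of `∏ 1 / log |n² + a l|` over `m < n ≤ m + H` (factors with `|n² + a l| ≤ 1` are `0` in Lean) -/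
noncomputable def W {k : ℕ} (a : Fin k → ℤ) (m H : ℕ) : ℝ :=
  ∑ n ∈ Ioc m (m + H), ∏ l, 1 / Real.log (((n : ℤ) ^ 2 + a l).natAbs : ℝ)

/-- **Systems of primes `n² + a_l` at all scales from the optimal one on, almost everywhere.** Let `k ≥ 2`. For every `ε > 0`
there is `T > 0` such that for every `C` there are `B` and `X₀` with the following property for all `X ≥ X₀`. Let `m₀`, `M` be such that
`X^(1/3) (log X)^B ≤ M` and `m₀ + M ≤ √X (log X)^C`. There is a set of at most `ε X^k M` pairs `(a, m)`, `|a l| ≤ X` for
`l = 1, …, k`, `m₀ < m ≤ m₀ + M`, such that for every other such pair for which no prime divides all the numbers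
`∏ (n² + a l)`: the product of Bateman and Horn converges to a number `h > 0`, and for ALL `H` with `T (log X)^k ≤ H ≤ √X (log X)^C`
the number of the `n`, `m < n ≤ m + H`, for which all the numbers `|n² + a l|` are primes, is
`h ∑_{m < n ≤ m + H} ∏_l 1 / log |n² + a l|` up to a relative error `ε`. -/
theorem result : ∀ k : ℕ, 2 ≤ k → ∀ ε : ℝ, 0 < ε → ∃ T : ℝ, 0 < T ∧ ∀ C : ℕ, ∃ B X₀ : ℕ, ∀ X : ℕ, X₀ ≤ X →
    ∀ m₀ M : ℕ, (X : ℝ) ^ (1 / 3 : ℝ) * Real.log X ^ B ≤ M → (m₀ : ℝ) + M ≤ √X * Real.log X ^ C →
    ∃ Bad ⊆ Box k X ×ˢ Ioc m₀ (m₀ + M), (#Bad : ℝ) ≤ ε * ((X : ℝ) ^ k * M) ∧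
      ∀ a ∈ Box k X, ∀ m ∈ Ioc m₀ (m₀ + M), (a, m) ∉ Bad → (∀ p : ℕ, p.Prime → nu a p < p) →
        ∃ h : ℝ, 0 < h ∧ Tendsto (fun N : ℕ => BH a N) atTop (𝓝 h) ∧
          ∀ H : ℕ, T * Real.log X ^ k ≤ H → (H : ℝ) ≤ √X * Real.log X ^ C →
            |(P a m H : ℝ) - h * W a m H| ≤ ε * (h * W a m H) := by
  intro k hk ε hε
  obtain ⟨T, hT, h1⟩ := Run7.h285.S.sysm_all k (by omega) ε hε
  refine ⟨T, hT, fun C => ?_⟩
  obtain ⟨B, X₀, h2⟩ := h1 C
  refine ⟨B, X₀, fun X hX m₀ M hM hW => ?_⟩
  obtain ⟨Bad, hB1, hB2, hB3⟩ := h2 X hX m₀ M hM hW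
  exact ⟨Bad, hB1, hB2, fun a ha m hm hb hadm => hB3 a ha m hm hb hadm⟩

end Pool.Agent.Results.MP_2dba45_nt.SystemsAtAllScales
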